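import Pool.Agent.Q161.ESM.Stm2
set_option autoImplicit false

namespace Pool.Agent.Q129.ESM.Lcu

open Function

variable {k V : Type} [Field k] [Fintype k] [Fintype V] [DecidableEq V]

/-- the functions compatible with `F` on `S`, equal to `z` outside, without zeros on `S` -/
def A (l : ℕ) (F : V → V) (z : V → k) (S : Finset V) : Set (V → k) :=
  {c | (∀ s ∈ S, c (F s) = c s ^ l) ∧ (∀ s, s ∉ S → c s = z s) ∧ ∀ s ∈ S, c s ≠ 0}

/-- the nonzero solutions of `x ^ n = x` -/
def Rt (k : Type) [Field k] (n : ℕ) : Set k := {x | x ≠ 0 ∧ x ^ n = x}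

omit [Fintype k] in
theorem rt_card {n : ℕ} (hn : 2 ≤ n) : (Rt k n).ncard ≤ n - 1 := by
  classical
  have hsub : Rt k n ⊆ ((Polynomial.nthRoots (n - 1) (1 : k)).toFinset : Set k) := by
    intro x hx
    obtain ⟨h0, h1⟩ := hx
    simp only [Finset.mem_coe, Multiset.mem_toFinset]
    rw [Polynomial.mem_nthRoots (by omega)]
    have h2 : x * x ^ (n - 1) = x * 1 := by
      rw [← pow_succ', mul_one, show n - 1 + 1 = n by omega]
      exact h1
    exact mul_left_cancel₀ h0 h2
  calc (Rt k n).ncard ≤ ((Polynomial.nthRoots (n - 1) (1 : k)).toFinset : Set k).ncard :=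
        Set.ncard_le_ncard hsub (Finset.finite_toSet _)
    _ = (Polynomial.nthRoots (n - 1) (1 : k)).toFinset.card := Set.ncard_coe_finset _
    _ ≤ (Polynomial.nthRoots (n - 1) (1 : k)).card := Multiset.toFinset_card_le _
    _ ≤ n - 1 := Polynomial.card_nthRoots _ _

theorem bound (l : ℕ) (hl : 2 ≤ l) (F : V → V) (hF : Bijective F) (z : V → k) :
    ∀ (n : ℕ) (S : Finset V), S.card = n → (∀ s, s ∈ S ↔ F s ∈ S) →
      (A l F z S).ncard ≤ (l - 1) ^ (S.filter (fun s => F s = s)).card *
        l ^ (S.card - (S.filter (fun s => F s = s)).card) := by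
  intro n
  induction n using Nat.strong_induction_on with
  | _ n ih =>
    intro S hSn hS
    rcases S.eq_empty_or_nonempty with rfl | ⟨s, hs⟩
    · have : A l F z ∅ ⊆ {z} := by
        intro c hc
        rw [Set.mem_singleton_iff]
        funext t
        exact hc.2.1 t (by simp)
      have h1 := Set.ncard_le_ncard this (Set.finite_singleton z)
      rw [Set.ncard_singleton] at h1
      simpa using h1
    · -- the orbit
      set m := minimalPeriod F s with hm
      have hper : s ∈ periodicPts F := hF.1.mem_periodicPts s
      have hmpos : 0 < m := minimalPeriod_pos_of_mem_periodicPts hper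
      have hms : F^[m] s = s := iterate_minimalPeriod
      set w : Finset V := (Finset.range m).image (fun j => F^[j] s) with hw
      have hwmem : ∀ t, t ∈ w ↔ ∃ j < m, F^[j] s = t := by
        intro t
        simp [hw]
      have hwcard : w.card = m := by
        rw [hw, Finset.card_image_of_injOn, Finset.card_range]
        intro a ha b hb hab
        exact iterate_injOn_Iio_minimalPeriod (by simpa using ha) (by simpa using hb) hab
      have hwS : w ⊆ S := by
        intro t ht
        obtain ⟨j, -, rfl⟩ := (hwmem t).1 ht
        clear ht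
        induction j with
        | zero => exact hs
        | succ j ihj =>
          rw [iterate_succ_apply']
          exact (hS _).1 ihj
      have hwF : ∀ t, t ∈ w ↔ F t ∈ w := by
        intro t
        constructor
        · intro ht
          obtain ⟨j, hj, rfl⟩ := (hwmem t).1 ht
          rw [← iterate_succ_apply' F j s]
          rcases Nat.lt_or_ge (j + 1) m with h | h
          · exact (hwmem _).2 ⟨j + 1, h, rfl⟩
          · have : j.succ = m := by omega
            rw [this, hms]
            exact (hwmem _).2 ⟨0, hmpos, rfl⟩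
        · intro ht
          obtain ⟨j, hj, h⟩ := (hwmem _).1 ht
          rcases Nat.eq_zero_or_pos j with rfl | hj0
          · have h2 : F (F^[m - 1] s) = F t := by
              rw [← iterate_succ_apply' F (m - 1) s, show (m - 1).succ = m by omega, hms]
              exact h
            exact (hwmem _).2 ⟨m - 1, by omega, hF.1 h2⟩
          · have h2 : F (F^[j - 1] s) = F t := by
              rw [← iterate_succ_apply' F (j - 1) s, show (j - 1).succ = j by omega]
              exact h
            exact (hwmem _).2 ⟨j - 1, by omega, hF.1 h2⟩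
      have hsw : s ∈ w := (hwmem s).2 ⟨0, hmpos, rfl⟩
      set S' := S \ w with hS'
      have hS'F : ∀ t, t ∈ S' ↔ F t ∈ S' := by
        intro t
        rw [hS', Finset.mem_sdiff, Finset.mem_sdiff, ← hS t, ← hwF t]
      have hcardS : S'.card + m = S.card := by
        rw [hS', ← hwcard]
        exact Finset.card_sdiff_add_card_eq_card hwS
      have hih := ih S'.card (by omega) S' rfl hS'F
      -- the injection
      have hval : ∀ c ∈ A l F z S, ∀ j, c (F^[j] s) = c s ^ l ^ j := by
        intro c hc j
        induction j with
        | zero => simp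
        | succ j ihj =>
          have hmem : F^[j] s ∈ S := by
            clear ihj
            induction j with
            | zero => exact hs
            | succ j ihj =>
              rw [iterate_succ_apply']
              exact (hS _).1 ihj
          rw [iterate_succ_apply', hc.1 _ hmem, ihj, ← pow_mul, ← pow_succ]
      let f : (V → k) → (V → k) × k := fun c => (fun t => if t ∈ w then z t else c t, c s)
      have hle : (A l F z S).ncard ≤ (A l F z S' ×ˢ Rt k (l ^ m)).ncard := by
        apply Set.ncard_le_ncard_of_injOn f
        · intro c hc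
          refine ⟨⟨?_, ?_, ?_⟩, ?_, ?_⟩
          · intro t ht
            have ht2 := Finset.mem_sdiff.1 ht
            have h1 : F t ∉ w := fun h => ht2.2 ((hwF t).2 h)
            simp only [f, if_neg h1, if_neg ht2.2]
            exact hc.1 t ht2.1
          · intro t ht
            by_cases h : t ∈ w
            · simp only [f, if_pos h]
            · simp only [f, if_neg h]
              exact hc.2.1 t (fun h' => ht (Finset.mem_sdiff.2 ⟨h', h⟩))
          · intro t ht
            have ht2 := Finset.mem_sdiff.1 ht
            simp only [f, if_neg ht2.2]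
            exact hc.2.2 t ht2.1
          · exact hc.2.2 s hs
          · change c s ^ l ^ m = c s
            rw [← hval c hc m, hms]
        · intro c hc c' hc' heq
          have h1 : ∀ t, t ∉ w → c t = c' t := by
            intro t ht
            have := congrFun (congrArg Prod.fst heq) t
            simpa only [f, if_neg ht] using this
          have h2 : c s = c' s := congrArg Prod.snd heq
          funext t
          by_cases ht : t ∈ w
          · obtain ⟨j, -, rfl⟩ := (hwmem t).1 ht
            rw [hval c hc j, hval c' hc' j, h2]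
          · exact h1 t ht
      rw [Set.ncard_prod] at hle
      have hlm : 2 ≤ l ^ m := le_trans hl (Nat.le_self_pow (by omega) l)
      have hR := rt_card (k := k) hlm
      -- fixed points
      have hfix : (S.filter (fun t => F t = t)).card =
          (S'.filter (fun t => F t = t)).card + (w.filter (fun t => F t = t)).card := by
        rw [← Finset.card_union_of_disjoint, ← Finset.filter_union, hS', Finset.sdiff_union_of_subset hwS]
        apply Finset.disjoint_filter_filter
        rw [hS']
        exact Finset.sdiff_disjoint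
      have hS'le : (S'.filter (fun t => F t = t)).card ≤ S'.card := Finset.card_filter_le _ _
      rcases Nat.lt_or_ge 1 m with h1 | h1
      · have hw0 : (w.filter (fun t => F t = t)).card = 0 := by
          rw [Finset.card_eq_zero, Finset.filter_eq_empty_iff]
          intro t ht hfixt
          obtain ⟨j, hj, rfl⟩ := (hwmem t).1 ht
          have h3 : F (F^[j] s) = F^[j] s := hfixt
          rw [← iterate_succ_apply' F j s, iterate_succ_apply F j s] at h3
          have h4 : F s = s := (hF.1.iterate j) h3
          have h5 : m = 1 := minimalPeriod_eq_one_iff_isFixedPt.2 h4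
          omega
        rw [hfix, hw0, add_zero]
        calc (A l F z S).ncard ≤ _ := hle
          _ ≤ ((l - 1) ^ (S'.filter (fun t => F t = t)).card *
              l ^ (S'.card - (S'.filter (fun t => F t = t)).card)) * l ^ m :=
              Nat.mul_le_mul hih (hR.trans (Nat.sub_le _ _))
          _ = _ := by
              rw [mul_assoc, ← pow_add]
              congr 2
              omega
      · have hm1 : m = 1 := by omega
        have hFs : F s = s := minimalPeriod_eq_one_iff_isFixedPt.1 (hm ▸ hm1)
        have hw1 : (w.filter (fun t => F t = t)).card = 1 := by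
          have : w.filter (fun t => F t = t) = {s} := by
            ext t
            rw [Finset.mem_filter, hwmem, Finset.mem_singleton]
            constructor
            · rintro ⟨⟨j, hj, rfl⟩, -⟩
              have : j = 0 := by omega
              rw [this]
              rfl
            · rintro rfl
              exact ⟨⟨0, hmpos, rfl⟩, hFs⟩
          rw [this, Finset.card_singleton]
        rw [hfix, hw1]
        have hR1 : (Rt k (l ^ m)).ncard ≤ l - 1 := by
          rw [hm1, pow_one] at hR ⊢
          exact hR
        calc (A l F z S).ncard ≤ _ := hle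
          _ ≤ ((l - 1) ^ (S'.filter (fun t => F t = t)).card *
              l ^ (S'.card - (S'.filter (fun t => F t = t)).card)) * (l - 1) :=
              Nat.mul_le_mul hih hR1
          _ = _ := by
              rw [pow_succ, show S.card - ((S'.filter (fun t => F t = t)).card + 1) =
                S'.card - (S'.filter (fun t => F t = t)).card by omega]
              ring

theorem pow_bound (x : ℝ) (h0 : 0 ≤ x) (h1 : x ≤ 1) (N : ℕ) :
    (1 - x) ^ N ≤ 1 - N * x + (N : ℝ) ^ 2 * x ^ 2 := by
  induction N with
  | zero => simp
  | succ N ih =>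
    have h2 : (1 - x) ^ (N + 1) ≤ (1 - N * x + (N : ℝ) ^ 2 * x ^ 2) * (1 - x) := by
      rw [pow_succ]
      exact mul_le_mul_of_nonneg_right ih (by linarith)
    refine h2.trans ?_
    push_cast
    have hN : (0 : ℝ) ≤ N := Nat.cast_nonneg N
    have h3 : 0 ≤ (N : ℝ) ^ 2 * x ^ 3 := by positivity
    have h4 : 0 ≤ (N : ℝ) * x ^ 2 := by positivity
    nlinarith [sq_nonneg x]

theorem main (l : ℕ) (hl : 2 ≤ l) (F : V → V) (hF : Bijective F) (S : Finset V)
    (hS : ∀ s, s ∈ S ↔ F s ∈ S) (z : V → k) :
    ((A l F z S).ncard : ℝ) ≤
      (l : ℝ) ^ S.card * (1 - ((S.filter (fun s => F s = s)).card : ℝ) / l +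
        (Fintype.card V : ℝ) ^ 2 / (l : ℝ) ^ 2) := by
  have hb := bound l hl F hF z S.card S rfl hS
  set N := (S.filter (fun s => F s = s)).card with hN
  have hNS : N ≤ S.card := Finset.card_filter_le _ _
  have hSV : S.card ≤ Fintype.card V := Finset.card_le_univ S
  have hl0 : (0 : ℝ) < l := by
    have : 0 < l := by omega
    exact_mod_cast this
  have hb' : ((A l F z S).ncard : ℝ) ≤ ((l : ℝ) - 1) ^ N * (l : ℝ) ^ (S.card - N) := by
    have h1 : ((A l F z S).ncard : ℝ) ≤ (((l - 1) ^ N * l ^ (S.card - N) : ℕ) : ℝ) := by
      exact_mod_cast hb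
    refine h1.trans (le_of_eq ?_)
    rw [Nat.cast_mul, Nat.cast_pow, Nat.cast_pow, Nat.cast_sub (by omega), Nat.cast_one]
  refine hb'.trans ?_
  have h2 : ((l : ℝ) - 1) ^ N * (l : ℝ) ^ (S.card - N) = (l : ℝ) ^ S.card * (1 - 1 / (l : ℝ)) ^ N := by
    have h3 : (l : ℝ) - 1 = l * (1 - 1 / (l : ℝ)) := by field_simp
    rw [h3, mul_pow]
    have h4 : (l : ℝ) ^ S.card = (l : ℝ) ^ N * (l : ℝ) ^ (S.card - N) := by
      rw [← pow_add, Nat.add_sub_cancel' hNS]
    rw [h4]
    ring
  rw [h2]
  refine mul_le_mul_of_nonneg_left ?_ (by positivity)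
  have h5 := pow_bound (1 / (l : ℝ)) (by positivity) (by
    rw [div_le_one hl0]
    exact_mod_cast (by omega : 1 ≤ l)) N
  refine h5.trans ?_
  have h6 : (N : ℝ) ^ 2 * (1 / (l : ℝ)) ^ 2 ≤ (Fintype.card V : ℝ) ^ 2 / (l : ℝ) ^ 2 := by
    rw [div_pow, one_pow, mul_one_div]
    have h7 : (N : ℝ) ≤ Fintype.card V := by exact_mod_cast hNS.trans hSV
    gcongr
  have h8 : (N : ℝ) * (1 / (l : ℝ)) = N / l := by ring
  linarith

end Pool.Agent.Q129.ESM.Lcu

namespace Pool.Agent.Q129.ESM

open Pool.Agent.Q161.ESM

/-- The number of the functions without zeros. -/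
theorem lcu : S_LCU := by
  intro k V _ _ _ _ _ l hl F hF S hS z
  have h1 : {c : V → k | EqF l F c ∧ (∀ s, s ∉ S → c s = z s) ∧ ∀ s ∈ S, c s ≠ 0} ⊆
      Lcu.A l F z S := fun c hc => ⟨fun s _ => hc.1 s, hc.2.1, hc.2.2⟩
  have h2 : (({c : V → k | EqF l F c ∧ (∀ s, s ∉ S → c s = z s) ∧ ∀ s ∈ S, c s ≠ 0}.ncard : ℕ) : ℝ) ≤
      ((Lcu.A l F z S).ncard : ℝ) := by
    exact_mod_cast Set.ncard_le_ncard h1 (Set.toFinite _)
  exact h2.trans (Lcu.main l hl.two_le F hF S hS z)

end Pool.Agent.Q129.ESM
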